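import Pool.Agent.Lib.MP_8983f3_an.Main

set_option autoImplicit false

/-!
# Negative answer to Q1 of MP_8983f3_an

There are separable real Banach spaces `X`, `Y` (in the proof `X = Y = ℓ_1`), a subspace `M` of `Y`
which is a Banach space under a larger norm, and a Borel map `φ : X → Y`, linear modulo `M`, such
that the Polish vector space topology of `φ⁻¹(M)` exists and is not normable.
-/

namespace Pool.Agent.Results.MP_8983f3_an.NotNormable

open Pool.Agent.Lib.MP_8983f3_an

theorem result : ∃ (X Y : Type) (_ : NormedAddCommGroup X) (_ : NormedSpace ℝ X)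
    (_ : CompleteSpace X) (_ : TopologicalSpace.SeparableSpace X)
    (_ : NormedAddCommGroup Y) (_ : NormedSpace ℝ Y)
    (_ : CompleteSpace Y) (_ : TopologicalSpace.SeparableSpace Y), HasNonNormablePreimage X Y :=
  ⟨L1, L1, inferInstance, inferInstance, inferInstance, inferInstance, inferInstance,
    inferInstance, inferInstance, inferInstance, D.M, D.nM, D.φ, D.Z, D.isBanachSubspace,
    D.hφ.borel_measurable, D.isLinearModulo, fun _ => Iff.rfl, ⟨D.τ, D.isPolishVectorTopology⟩,
    not_normable⟩

end Pool.Agent.Results.MP_8983f3_an.NotNormable
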